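import Pool.Agent.N914.MR.Main

set_option autoImplicit false

/-!
# Irregularities in short intervals at all scales `y ≤ (log x)^A` simultaneously

Let `R(x, y) = (log x / y) (π(x + y) - π(x))` and `δ_A = 1 / (32 (8A + 16)^(2A + 4) (2A + 4)!) > 0`.

1. For every `A` and `η > 0`, for all large `X` at least `X^(1-η)` integers `n ≤ X` are such that for
ALL real `y` with `0 < y ≤ (log n)^A` at the same time the interval `[n, n + y]` contains at least
`(1 + δ_A) y / log n` primes.

2. In the same sense, at least `X^(1-η)` integers `n ≤ X` satisfy `R(n, y) ≤ 1 - δ_A` for all `y` with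
`0 < y ≤ (log n)^A` at the same time.

3. So for EVERY function `h` with `c ≤ h(x) ≤ (log x)^A` for large `x` (no continuity, monotonicity or
regularity is assumed) `U(h) ≥ 1 + δ_A` and `L(h) ≤ 1 - δ_A`.

Maier's theorem is the case of one function `h(x) = (log x)^a`, `a > 1`, with one length `y = h(x)` at
each point.

Method.  (i) An elementary version of Maier's theorem with explicit deviations for all exponents: let
`z` be of the order of `log X` and `w = z^(K/(K+1))`.  A product of `K + 1` primes from `(w, z]` exceeds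
`z^K`, so that for the integers up to `z^K` without prime factors in `(w, z]` the sieve identity stops
after `K` steps; its remainder has the sign `(-1)^K` and is bounded below explicitly.  So the matrix of
Maier, in the form of the starting library (`Pool.Agent.H510R2.Maier`), contains many rows with too many
primes in an interval of length `(log X)^K` if `K` is even, and with too few if `K` is odd.  (ii) A covering
argument: if every prime `t` of a long rich interval were the left end of some poor interval
`[t, t + y]`, `y ≤ (log t)^A`, these intervals would cover all the primes of the long interval.  Similarly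
for all integers `t` of a long poor interval.
-/

open Filter Finset

namespace Pool.Agent.Results.MP_b09185_nt.AllExponentsAtOnce

/-- `R(x, y) = (log x / y) (π(x + y) - π(x))`; the function `R_h` of the problem is
`R_h(x) = R(x, h(x))`. -/
noncomputable def R (x y : ℝ) : ℝ :=
  Real.log x / y * ((Nat.primeCounting ⌊x + y⌋₊ : ℝ) - Nat.primeCounting ⌊x⌋₊)

/-- The uniform deviation `δ_A`. -/
noncomputable def δ (A : ℕ) : ℝ :=
  1 / (32 * (8 * (A : ℝ) + 16) ^ (2 * A + 4) * (2 * A + 4).factorial)

open Classical in
theorem result (A : ℕ) :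
    0 < δ A ∧
    (∀ η : ℝ, 0 < η → ∀ᶠ X : ℕ in atTop, (X : ℝ) ^ (1 - η) ≤
      (((Icc 1 X).filter (fun n : ℕ => ∀ y : ℝ, 0 < y → y ≤ (Real.log n) ^ A →
        (1 + δ A) * (y / Real.log n) ≤
          (Nat.primeCounting ⌊(n : ℝ) + y⌋₊ : ℝ) - Nat.primeCounting (n - 1))).card : ℝ)) ∧
    (∀ η : ℝ, 0 < η → ∀ᶠ X : ℕ in atTop, (X : ℝ) ^ (1 - η) ≤
      (((Icc 1 X).filter (fun n : ℕ => ∀ y : ℝ, 0 < y → y ≤ (Real.log n) ^ A →
        R n y ≤ 1 - δ A)).card : ℝ)) ∧
    (∀ (h : ℝ → ℝ) (c : ℝ), 0 < c → (∀ᶠ x : ℝ in atTop, c ≤ h x ∧ h x ≤ (Real.log x) ^ A) →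
      (∃ᶠ x : ℝ in atTop, 1 + δ A ≤ R x (h x)) ∧
      (∃ᶠ x : ℝ in atTop, R x (h x) ≤ 1 - δ A)) :=
  Pool.Agent.N914.MR.main A

end Pool.Agent.Results.MP_b09185_nt.AllExponentsAtOnce
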