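import Pool.Agent.N699.GC.PrimW

/-!
# Primes in almost all translates of explicit unions of intervals of polylogarithmic length

For all but `N / log ^ U N` of the `x ≤ N` the ratio `R_h(y) = (log N / h) (π(y + h) - π(y))`, `log ^ C N ≤ h ≤ N`, is
`1 + o(1)` on the average over the explicit points `y = x + c + u ⌊M / b⌋`, `b ≤ h` prime, `0 ≤ u < b` (for
`h = log ^ C N` there are fewer than `log ^ (2 C) N` of them). More generally every probability measure on `0, ..., B N`
with a Fourier transform of at most `1 / log ^ W N` off the arc at zero gives the expected mass to the primes minus `x`,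
for all but `N / log ^ U N` of the `x ≤ N`.
-/

set_option autoImplicit false

namespace Pool.Agent.Results.MP_b09185_nt.AverageOverTranslates

open Finset

/-- `p` is a probability measure on the integers `0, ..., B N`, and its Fourier transform `∑ p v e(v α)` is at most
`1 / log ^ W N` in absolute value at all the real frequencies `α` at a distance of more than `log ^ E N / N` from the
integers. -/
structure SmallOff (B E W N : ℕ) (p : ℕ → ℝ) : Prop where
  nonneg : ∀ v ∈ range (B * N + 1), 0 ≤ p v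
  sum : ∑ v ∈ range (B * N + 1), p v = 1
  small : ∀ α : ℝ, (∀ k : ℤ, Real.log N ^ E / N < |α - k|) →
    ‖∑ v ∈ range (B * N + 1), (p v : ℂ) * Complex.exp (2 * Real.pi * Complex.I * ((v * α : ℝ) : ℂ))‖ ≤ 1 / Real.log N ^ W

/-- The primes `b ≤ h`. -/
def primesTo (h : ℕ) : Finset ℕ := (range (h + 1)).filter Nat.Prime

/-- The number of the pairs `(b, u)`, `b ≤ h` prime, `0 ≤ u < b`. -/
def pairs (h : ℕ) : ℕ := ∑ b ∈ primesTo h, b

/-- The average over the pairs `(b, u)`, `b ≤ h` prime, `0 ≤ u < b`, of the ratio `(log N / h) (π(y + h) - π(y))` at the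
point `y = x + u ⌊M / b⌋`. -/
noncomputable def averageRatio (N h M x : ℕ) : ℝ :=
  (∑ b ∈ primesTo h, ∑ u ∈ range b, Real.log N / h *
    ((Nat.primeCounting (x + u * (M / b) + h) : ℝ) - Nat.primeCounting (x + u * (M / b)))) / pairs h

lemma count_int (y h : ℕ) : ∑ i ∈ range h, (if (y + 1 + i).Prime then (1 : ℝ) else 0) =
    (Nat.primeCounting (y + h) : ℝ) - Nat.primeCounting y := by
  induction h with
  | zero => simp
  | succ h ih =>
    rw [sum_range_succ, ih]
    have h1 : Nat.primeCounting (y + (h + 1)) = Nat.primeCounting (y + h) + (if (y + 1 + h).Prime then 1 else 0) := by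
      have e1 : y + (h + 1) + 1 = (y + h + 1) + 1 := by ring
      have e2 : y + 1 + h = y + h + 1 := by ring
      unfold Nat.primeCounting Nat.primeCounting'
      rw [e1, Nat.count_succ, e2]
    rw [h1]
    push_cast
    split_ifs <;> ring

lemma average_eq (N h M c x : ℕ) (hh : 1 ≤ h) :
    Real.log N * ∑ t ∈ Pool.Agent.N699.RP.pts h, 1 / ((Pool.Agent.N699.RP.pts h).card : ℝ) *
      (if (x + (c + 1 + Pool.Agent.N699.RP.pt M t)).Prime then 1 else 0) = averageRatio N h M (x + c) := by
  have hh0 : (0 : ℝ) < h := by exact_mod_cast hh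
  rw [Pool.Agent.N699.RP.card_pts, Pool.Agent.N699.RP.pts_eq,
    Pool.Agent.N699.RP.sum_trip (Pool.Agent.N699.RP.prs h) h (fun b hb => (Pool.Agent.N699.RP.prs_mem h b hb).2)]
  unfold averageRatio
  have h1 : (pairs h : ℝ) = ∑ b ∈ Pool.Agent.N699.RP.prs h, (b : ℝ) := by
    unfold pairs
    push_cast
    rfl
  rw [h1, sum_div, mul_sum]
  apply sum_congr rfl
  intro b _
  rw [sum_div, mul_sum]
  apply sum_congr rfl
  intro u _
  rw [← mul_sum]
  have h2 : ∑ i ∈ range h, (if (x + (c + 1 + Pool.Agent.N699.RP.pt M (b, u, i))).Prime then (1 : ℝ) else 0) =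
      (Nat.primeCounting (x + c + u * (M / b) + h) : ℝ) - Nat.primeCounting (x + c + u * (M / b)) := by
    rw [← count_int]
    apply sum_congr rfl
    intro i _
    have e1 : x + (c + 1 + Pool.Agent.N699.RP.pt M (b, u, i)) = x + c + u * (M / b) + 1 + i := by
      unfold Pool.Agent.N699.RP.pt
      ring
    rw [e1]
  rw [h2]
  field_simp

open Classical in
/-- Let `B ≥ 1`, `U` and `ε > 0` be fixed.

(1) There is a `W` such that for every `E`, for all large `N` and for every probability measure `p` on `0, ..., B N` with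
a Fourier transform of at most `1 / log ^ W N` at a distance of more than `log ^ E N / N` from the integers, for all but at
most `N / log ^ U N` of the integers `1 ≤ x ≤ N`,
`∑ p v Λ(x + v) = 1 + O(1 / log ^ U N)`, and the `p`-probability that `x + v` is prime is `(1 ± ε) / log N`.

(2) There is a `C` such that for all large `N`, all `h` with `log ^ C N ≤ h ≤ N`, all `M` with `N / B ≤ M ≤ B N` and all
`c ≤ B N`, for all but at most `N / log ^ U N` of the integers `1 ≤ x ≤ N` the average of the ratio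
`(log N / h) (π(y + h) - π(y))` over the points `y = x + c + u ⌊M / b⌋`, `b ≤ h` prime, `0 ≤ u < b`, is `1 ± ε`. -/
theorem result (B U : ℕ) (hB : 1 ≤ B) (ε : ℝ) (hε : 0 < ε) :
    (∃ W : ℕ, ∀ E : ℕ, ∃ N₀ : ℕ, ∀ N, N₀ ≤ N → ∀ p : ℕ → ℝ, SmallOff B E W N p →
      (((Icc 1 N).filter fun x => ¬ (|∑ v ∈ range (B * N + 1), p v * ArithmeticFunction.vonMangoldt (x + v) - 1| ≤ 1 / Real.log N ^ U ∧
        |Real.log N * ∑ v ∈ range (B * N + 1), p v * (if (x + v).Prime then 1 else 0) - 1| ≤ ε)).card : ℝ) ≤ N / Real.log N ^ U) ∧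
    (∃ C N₀ : ℕ, ∀ N, N₀ ≤ N → ∀ h M c : ℕ, Real.log N ^ C ≤ h → h ≤ N → N ≤ B * M → M ≤ B * N → c ≤ B * N →
      (((Icc 1 N).filter fun x => ¬ |averageRatio N h M (x + c) - 1| ≤ ε).card : ℝ) ≤ N / Real.log N ^ U) := by
  constructor
  · refine ⟨3 * U + 5, fun E => ?_⟩
    obtain ⟨N1, h1⟩ := Pool.Agent.N699.GC.prim_law B U ε hε E
    refine ⟨N1, fun N hN p hp => ?_⟩
    exact h1 N hN (range (B * N + 1)) p ⟨hp.nonneg, hp.sum, fun v hv => by
      rw [mem_range] at hv
      omega, hp.small⟩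
  · obtain ⟨W, hW⟩ : ∃ W, W = 3 * U + 5 := ⟨_, rfl⟩
    obtain ⟨N1, h1⟩ := Pool.Agent.N699.GC.prim_law (B + 1 + (B + 1)) U ε hε (W + 1)
    obtain ⟨N2, h2⟩ := Pool.Agent.N699.GC.prime_lawz B W hB
    obtain ⟨N3, h3⟩ := Pool.Agent.H373R2.T7.ev_L' 1
    refine ⟨2 * W + 5, N1 + N2 + N3 + 3, fun N hN h M c hh1 hh2 hM1 hM2 hc => ?_⟩
    have a3 := h3 N (by omega)
    have hh : 1 ≤ h := by
      have : (1 : ℝ) ≤ h := (one_le_pow₀ a3).trans hh1
      exact_mod_cast this
    have h4 := h2 N (by omega) M hM1 hM2 h hh1 hh2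
    have h5 := Pool.Agent.N699.GC.lz_trans (B + 1) (B + 1) (W + 1) W N (Pool.Agent.N699.RP.pts h)
      (fun _ => 1 / ((Pool.Agent.N699.RP.pts h).card : ℝ)) (fun _ _ => by positivity) (Pool.Agent.N699.RP.pt M) (c + 1) (by
        rw [add_mul, one_mul]
        omega) h4
    rw [hW] at h5
    rw [hW] at h1
    have h6 := h1 N (by omega) _ _ h5
    refine le_trans ?_ h6
    apply Nat.cast_le.2
    apply card_le_card
    intro x hx
    rw [mem_filter] at hx ⊢
    refine ⟨hx.1, fun hcon => hx.2 ?_⟩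
    have h7 := hcon.2
    have h8 : ∑ v ∈ (Pool.Agent.N699.RP.pts h).image (fun t => c + 1 + Pool.Agent.N699.RP.pt M t),
        Pool.Agent.N699.RP.push (Pool.Agent.N699.RP.pts h) (fun _ => 1 / ((Pool.Agent.N699.RP.pts h).card : ℝ))
          (fun t => c + 1 + Pool.Agent.N699.RP.pt M t) v * (if (x + v).Prime then 1 else 0) =
        ∑ t ∈ Pool.Agent.N699.RP.pts h, 1 / ((Pool.Agent.N699.RP.pts h).card : ℝ) *
          (if (x + (c + 1 + Pool.Agent.N699.RP.pt M t)).Prime then 1 else 0) := by
      have h9 := Pool.Agent.N699.RP.push_sum (Pool.Agent.N699.RP.pts h) (fun _ => 1 / ((Pool.Agent.N699.RP.pts h).card : ℝ))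
        (fun t => c + 1 + Pool.Agent.N699.RP.pt M t) (fun v => (((if (x + v).Prime then 1 else 0 : ℝ)) : ℂ))
      exact_mod_cast h9
    rw [h8, average_eq N h M c x hh] at h7
    exact h7

end Pool.Agent.Results.MP_b09185_nt.AverageOverTranslates
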