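import Mathlib
import Pool.Agent.N740.HK.Gr3
import Pool.Agent.N740.HK.Trials
import Pool.Agent.N740.HK.Sch

/-!
# Intervals of length `(log x)^a` in random models of the primes with sieving by small primes

The integers are decided one after the other.  An integer with a prime factor `p ≤ z(n)` is never
chosen, and the conditional probability of choosing `n + 1`, given the decisions up to `n`, is
asymptotic to `1 / (log n ∏ (1 - 1/p))`, `p ≤ z(n + 1)`, along the other integers.  With `z = 0`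
these are the models of Cramér and of Hawkins, with `z(n) = log n` Granville's refinement, in which
the irregularities of Maier's theorem are present.
-/

set_option autoImplicit false

open MeasureTheory Filter Set ProbabilityTheory
open scoped Topology

namespace Pool.Agent.Results.MP_b09185_nt.SievedModels

variable {Ω : Type}

/-- `n` has no prime factor at most `z` -/
def Sifted (z n : ℕ) : Prop := ∀ p : ℕ, p.Prime → p ≤ z → ¬ p ∣ n

/-- `∏ (1 - 1/p)` over the primes `p ≤ z` -/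
noncomputable def mertens (z : ℕ) : ℝ := ∏ p ∈ (Finset.Icc 1 z).filter Nat.Prime, (1 - 1 / (p : ℝ))

/-- `A n` is the event that `n` is chosen.  The events are adapted to the filtration `ℱ`; an integer
`n` with a prime factor at most `z n` is never chosen; and the conditional probability of `A (n + 1)`
given `ℱ n`, times `log n` and times `∏ (1 - 1/p)`, `p ≤ z (n + 1)`, tends to `1` almost surely when
`n` tends to infinity in such a way that `n + 1` has no prime factor at most `z (n + 1)`. -/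
def SievedModel [m : MeasurableSpace Ω] (μ : Measure Ω) (ℱ : Filtration ℕ m) (z : ℕ → ℕ) (A : ℕ → Set Ω) : Prop :=
  (∀ n, MeasurableSet[ℱ n] (A n)) ∧ (∀ n, ¬ Sifted (z n) n → A n = ∅) ∧
  ∀ᵐ ω ∂μ, Tendsto (fun n : ℕ => (μ[(A (n + 1)).indicator (fun _ => (1 : ℝ)) | ℱ n]) ω * (Real.log n * mertens (z (n + 1))))
    (atTop ⊓ 𝓟 {n : ℕ | Sifted (z (n + 1)) (n + 1)}) (𝓝 1)

/-- The independent models: the integers with a prime factor at most `z n` are not chosen, the other
large integers `n` are chosen independently with probability `1 / (log n ∏ (1 - 1/p))`, `p ≤ z n`.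
(Cramér: `z = 0`; Granville: `z n` of the order of `log n`.) -/
def IndependentModel [MeasurableSpace Ω] (μ : Measure Ω) (z : ℕ → ℕ) (A : ℕ → Set Ω) : Prop :=
  (∀ n, MeasurableSet (A n)) ∧ iIndepSet A μ ∧ (∀ n, ¬ Sifted (z n) n → A n = ∅) ∧
  ∀ᶠ n : ℕ in atTop, Sifted (z n) n → μ (A n) = ENNReal.ofReal (1 / (Real.log n * mertens (z n)))

open Classical in
/-- The random sieve of Hawkins: `2` is chosen, and given the decisions up to `n ≥ 2` the number
`n + 1` is chosen with probability `∏ (1 - 1 / h)`, the product over the chosen `2 ≤ h ≤ n`. -/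
def HawkinsSieve [m : MeasurableSpace Ω] (μ : Measure Ω) (ℱ : Filtration ℕ m) (A : ℕ → Set Ω) : Prop :=
  (∀ n, MeasurableSet[ℱ n] (A n)) ∧ A 2 = univ ∧
  ∀ n, 2 ≤ n → μ[(A (n + 1)).indicator (fun _ => (1 : ℝ)) | ℱ n] =ᵐ[μ]
    fun ω => ∏ h ∈ Finset.Icc 2 n, if ω ∈ A h then 1 - 1 / (h : ℝ) else 1

/-- `R_h(x)` for `h = (log x)^a`: the number of members of `S` in `(x, x + (log x)^a]`, divided by
`(log x)^a / log x`. -/
noncomputable def R (S : Set ℕ) (a x : ℝ) : ℝ :=
  Real.log x / Real.log x ^ a * ({m : ℕ | m ∈ S ∧ x < m ∧ (m : ℝ) ≤ x + Real.log x ^ a}.ncard : ℝ)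

open Pool.Agent.N740.HK Pool.Agent.R528.RM

lemma prod_inv (A : ℕ → Set Ω) (n : ℕ) (ω : Ω) [DecidablePred fun h => ω ∈ A h] :
    (∏ h ∈ Finset.Icc 2 n, if ω ∈ A h then 1 - 1 / (h : ℝ) else 1) = (Y A n ω)⁻¹ := by
  unfold Y
  rw [← Finset.prod_inv_distrib]
  refine Finset.prod_congr rfl fun h hh => ?_
  have h2 : (2 : ℝ) ≤ h := by exact_mod_cast (Finset.mem_Icc.1 hh).1
  by_cases hA : ω ∈ A h
  · rw [if_pos hA, if_pos hA, inv_div]
    field_simp
  · rw [if_neg hA, if_neg hA, inv_one]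

lemma log_ratio : Tendsto (fun n : ℕ => (Real.log ((n + 1 : ℕ) : ℝ))⁻¹ * Real.log n) atTop (𝓝 1) := by
  have h1 : Tendsto (fun n : ℕ => Real.log ((n : ℝ) + 1) - Real.log n) atTop (𝓝 0) := by
    have h1 : Tendsto (fun n : ℕ => 1 + (1 : ℝ) / n) atTop (𝓝 (1 + 0)) :=
      tendsto_const_nhds.add tendsto_one_div_atTop_nhds_zero_nat
    rw [add_zero] at h1
    have h2 := (Real.continuousAt_log (one_ne_zero)).tendsto.comp h1
    rw [Real.log_one] at h2
    refine h2.congr' ?_
    filter_upwards [eventually_gt_atTop 0] with n hn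
    have hn' : (0 : ℝ) < n := by exact_mod_cast hn
    show Real.log (1 + 1 / (n : ℝ)) = _
    rw [← Real.log_div (by positivity) hn'.ne']
    congr 1
    field_simp
  have h2 : Tendsto (fun n : ℕ => Real.log ((n : ℝ) + 1)) atTop atTop :=
    Real.tendsto_log_atTop.comp (tendsto_atTop_add_const_right _ _ tendsto_natCast_atTop_atTop)
  have h3 := h1.div_atTop h2
  have h4 : Tendsto (fun n : ℕ => 1 - (Real.log ((n : ℝ) + 1) - Real.log n) / Real.log ((n : ℝ) + 1)) atTop (𝓝 (1 - 0)) :=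
    tendsto_const_nhds.sub h3
  rw [sub_zero] at h4
  refine h4.congr' ?_
  filter_upwards [h2.eventually_gt_atTop 0] with n hn
  push_cast
  field_simp
  ring

lemma R_eq (A : ℕ → Set Ω) (ω : Ω) (a : ℝ) {x : ℝ} (hx : 1 ≤ x) :
    R {k | ω ∈ A k} a x = Real.log x / Real.log x ^ a * (∑ m ∈ Finset.Ioc ⌊x⌋₊ ⌊x + Real.log x ^ a⌋₊, J1 A m ω) := by
  classical
  have hL : 0 ≤ Real.log x ^ a := Real.rpow_nonneg (Real.log_nonneg hx) _
  have e : {m : ℕ | m ∈ {k | ω ∈ A k} ∧ x < m ∧ (m : ℝ) ≤ x + Real.log x ^ a} =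
      ((Finset.Ioc ⌊x⌋₊ ⌊x + Real.log x ^ a⌋₊).filter (fun m => ω ∈ A m) : Finset ℕ) := by
    ext m
    simp only [Set.mem_ofPred_eq, Finset.coe_filter, Finset.mem_Ioc]
    rw [Nat.floor_lt (by linarith), Nat.le_floor_iff (by linarith)]
    tauto
  unfold R
  rw [e, Set.ncard_coe_finset, Finset.card_filter]
  push_cast
  congr 1

end Pool.Agent.Results.MP_b09185_nt.SievedModels

open Pool.Agent.Results.MP_b09185_nt.SievedModels Pool.Agent.N740.HK Pool.Agent.R528.RM

/-- The independent models are sieved models for some filtration and Hawkins' sieve is one with `z = 0`.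
For every `κ` there is `c > 0` such that in every sieved model with a nondecreasing `z(n) ≤ (log n)^κ`
(for large `n`), almost surely, for every real `a ≥ 1 / c` one has `|R - 1| ≤ exp (-c a)` for all large `x`;
in particular the statement of the question holds almost surely.  If `z` is eventually smaller than every
power of the logarithm, then almost surely `R → 1` for every real `a > 2`. -/
theorem Pool.Agent.Results.MP_b09185_nt.SievedModels.result :
    (∀ {Ω : Type} [m : MeasurableSpace Ω] (μ : Measure Ω) [IsProbabilityMeasure μ] (A : ℕ → Set Ω),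
      (∀ z : ℕ → ℕ, IndependentModel μ z A → ∃ ℱ : Filtration ℕ m, SievedModel μ ℱ z A) ∧
      (∀ ℱ : Filtration ℕ m, HawkinsSieve μ ℱ A → SievedModel μ ℱ (fun _ => 0) A)) ∧
    (∀ κ : ℝ, ∃ c : ℝ, 0 < c ∧
      ∀ {Ω : Type} [m : MeasurableSpace Ω] (μ : Measure Ω) [IsProbabilityMeasure μ] (A : ℕ → Set Ω)
        (ℱ : Filtration ℕ m) (z : ℕ → ℕ), Monotone z → (∀ᶠ n : ℕ in atTop, (z n : ℝ) ≤ Real.log n ^ κ) →
        SievedModel μ ℱ z A →
        ∀ᵐ ω ∂μ, ∀ a : ℝ, 1 ≤ c * a →
          ∀ᶠ x : ℝ in atTop, |R {k | ω ∈ A k} a x - 1| ≤ Real.exp (-(c * a))) ∧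
    (∀ {Ω : Type} [m : MeasurableSpace Ω] (μ : Measure Ω) [IsProbabilityMeasure μ] (A : ℕ → Set Ω)
      (ℱ : Filtration ℕ m) (z : ℕ → ℕ), Monotone z → (∀ κ : ℝ, 0 < κ → ∀ᶠ n : ℕ in atTop, (z n : ℝ) ≤ Real.log n ^ κ) →
      SievedModel μ ℱ z A →
      ∀ᵐ ω ∂μ, ∀ a : ℝ, 2 < a → Tendsto (fun x : ℝ => R {k | ω ∈ A k} a x) atTop (𝓝 1)) := by
  classical
  refine ⟨fun {Ω} m μ _ A => ⟨fun z => ?_, fun ℱ => ?_⟩, fun κ => ?_, fun {Ω} m μ _ A ℱ z hz hzκ => ?_⟩
  · rintro ⟨hA, hi, he, hp⟩
    refine ⟨gen hA, gen_meas hA, he, ?_⟩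
    have h1 : ∀ᵐ ω ∂μ, ∀ n, (μ[(A (n + 1)).indicator (fun _ => (1 : ℝ)) | gen hA n]) ω =
        (μ (A (n + 1))).toReal := ae_all_iff.2 fun n => dens_gen hA hi n
    filter_upwards [h1] with ω hω
    refine (log_ratio.mono_left inf_le_left).congr' ?_
    rw [EventuallyEq, eventually_inf_principal]
    filter_upwards [eventually_ge_atTop 2, (tendsto_add_atTop_nat 1).eventually hp] with n hn hpn hf
    have hG : 0 < mertens (z (n + 1)) := GG_pos _
    have hn' : (2 : ℝ) ≤ n := by exact_mod_cast hn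
    have hL : 0 < Real.log ((n + 1 : ℕ) : ℝ) := Real.log_pos (by push_cast; linarith)
    rw [hω, hpn hf, ENNReal.toReal_ofReal (by positivity)]
    field_simp
  · rintro ⟨h1, h2, h3⟩
    have hs : Pool.Agent.N740.HK.HS μ ℱ A := ⟨h1, h2, fun n hn => by
      filter_upwards [h3 n hn] with ω hω
      rw [← prod_inv]
      exact hω⟩
    refine ⟨h1, fun n hn => absurd (fun p hp hp0 => absurd hp.pos (not_lt.2 hp0)) hn, ?_⟩
    filter_upwards [Pool.Agent.N740.HK.hawk_dens hs] with ω hω
    have e : mertens 0 = 1 := by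
      unfold mertens
      simp
    simp only [e, mul_one]
    exact hω.mono_left inf_le_left
  · obtain ⟨c, hc, h⟩ := gran_all κ
    refine ⟨c, hc, fun {Ω} m μ _ A ℱ z hz hzκ hM => ?_⟩
    filter_upwards [h μ ℱ A z hM.1 hz hzκ hM.2.1 hM.2.2] with ω hω
    intro a ha
    filter_upwards [hω a ha, eventually_ge_atTop 1] with x hx hx1
    rw [R_eq A ω a hx1]
    exact hx
  · intro hM
    filter_upwards [gran_small μ ℱ A z hM.1 hz hzκ hM.2.1 hM.2.2] with ω hω
    intro a ha
    refine (hω a ha).congr' ?_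
    filter_upwards [eventually_ge_atTop 1] with x hx1
    rw [R_eq A ω a hx1]
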