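import Pool.Agent.N610.PL.SM
import Pool.Agent.N610.PL.JR
import Pool.Agent.N610.PL.RICH
import Pool.Agent.N610.PL.POOR
import Pool.Agent.N610.PL.ST
import Pool.Agent.N610.PL.MAI
import Pool.Agent.N610.PL.FIN
import Pool.Agent.N610.PL.PLAT
import Pool.Agent.N610.MS.BON
import Pool.Agent.N610.MS.LEG
import Pool.Agent.N610.MS.CNT
import Pool.Agent.N610.MS.ROWS

set_option autoImplicit false

/-!
# Steady irregularities of the primes in short intervals

Authors: helper610, with helper2, helper80, helper531, helper581, helper654 (files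
`Pool/Agent/N610/PL`) and helper136, helper221, helper353, helper394, helper835 (files
`Pool/Agent/N610/MS`).

By Maier's theorem `R(x, (log x) ^ a) = (π(x + (log x) ^ a) - π(x)) / ((log x) ^ a / log x)` does not
tend to `1`, for every `a > 1`. The known proofs (averages over the rows of Maier's matrix) give no
information on the way in which `R(x, h)` varies with `h` at the exceptional `x`. We show that the
irregularities can be taken without oscillation: for every `A` there are `δ > 0` and `C` such that for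
at least `X ^ (1 - ε)` integers `x` of `(X, 4 X]` the function `R(x, h)` of `h` has values in
`[1 + δ, C]` on the whole range `C log x ≤ h ≤ (log x) ^ A`, and changes at most
`C (log (2 / λ) / λ) ^ 2` times by at least `λ`, for all `λ ≤ 1` simultaneously (the exponent `2` being
that of a random walk; so its `q`-variation is bounded for all `q > 2`). In particular `R(x, h)` is
constant up to `λ` on an interval `(log x) ^ t ≤ h ≤ (log x) ^ (t + κ)`, `κ = κ(A, λ) > 0`: for these
lengths the primes near `x` have a density, and it is not the expected one. The same holds with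
values `≤ 1 - δ`.

Proof. Rows: multiples `n` of a modulus `W ≤ X ^ ε`, a product of primes between `z ^ (1 - τ)` and `z`
with `φ(W) / W ≥ 1 / 2`, for which the mean of `R(n, T)` deviates from `1`,
`(log X) ^ (A + 2) ≤ T`. Along the rows the second moments of the numbers of primes in the intervals
`(n + u, n + u + H]`, `H ≥ log X`, have the right order (sieve bound for pairs, uniform in `W`). So (1) by
a greedy covering of the rows, with Cauchy's inequality, a positive proportion of all positions is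
followed by too many primes at ALL scales between `C log X` and `(log X) ^ A`; (2) by an abstract jump
inequality for the averages of monotone functions over intervals, applied to every row, the number of
changes is on average at most a constant times `1 / λ ^ 2`. By Chebyshev's inequality for all
`λ = 2 ^ (-j)` most of the positions in (1) have the property (2).
-/

namespace Pool.Agent.Results.MP_b09185_nt.SteadyIrregularities

open Finset Filter

/-- `R(x, h) = (π(x + h) - π(x)) / (h / log x)` -/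
noncomputable def R (x h : ℕ) : ℝ :=
  ((Nat.primeCounting (x + h) : ℝ) - (Nat.primeCounting x : ℝ)) * Real.log x / h

/-- `R(x, h)` changes at least `k` times by at least `lam` for `lo ≤ h ≤ hi`: there are `k`
non-overlapping pairs `s i < t i` of lengths in `[lo, hi]` with `|R(x, t i) - R(x, s i)| ≥ lam`. -/
def Changes (x : ℕ) (lo hi lam : ℝ) (k : ℕ) : Prop :=
  ∃ s t : ℕ → ℕ, (∀ i < k, lo ≤ s i ∧ s i < t i ∧ (t i : ℝ) ≤ hi ∧
      lam ≤ |R x (t i) - R x (s i)|) ∧
    ∀ i, i + 1 < k → t i ≤ s (i + 1)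

/-- `R(x, h) ≤ C` for all `log x ≤ h ≤ (log x) ^ A`, and for every `0 < lam ≤ 1` the function
`R(x, h)` changes at most `C (log (2 / lam) / lam) ^ 2` times by at least `lam` in this range. -/
def Steady (A C : ℝ) (x : ℕ) : Prop :=
  (∀ h : ℕ, Real.log x ≤ h → (h : ℝ) ≤ Real.log x ^ A → R x h ≤ C) ∧
  ∀ lam : ℝ, 0 < lam → lam ≤ 1 → ∀ k : ℕ, Changes x (Real.log x) (Real.log x ^ A) lam k →
    (k : ℝ) ≤ C * (Real.log (2 / lam) / lam) ^ 2

open Classical in
/-- For every `A > 1` there are `δ > 0` and `C > 0` such that: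
(1) for every `ε > 0` and all large `X` at least `X ^ (1 - ε)` integers `x` in `(X, 4 X]` are steady and
satisfy `R(x, h) ≥ 1 + δ` for ALL `C log x ≤ h ≤ (log x) ^ A`, and at least `X ^ (1 - ε)` integers `x`
in `(X, 4 X]` are steady and satisfy `R(x, h) ≤ 1 - δ` for ALL `1 ≤ h ≤ (log x) ^ A`;
(2) for every `lam > 0` there is `κ > 0` such that for every steady `x ≥ e` there is `t` with
`1 ≤ t < t + κ ≤ A` such that `R(x, h)` is constant up to `lam` for
`(log x) ^ t ≤ h ≤ (log x) ^ (t + κ)`. -/
theorem result : ∀ A : ℝ, 1 < A → ∃ δ C : ℝ, 0 < δ ∧ 0 < C ∧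
    (∀ ε : ℝ, 0 < ε → ∀ᶠ X : ℕ in atTop,
      (X : ℝ) ^ (1 - ε) ≤ (((Ioc X (4 * X)).filter (fun x : ℕ => (∀ h : ℕ, C * Real.log x ≤ h →
        (h : ℝ) ≤ Real.log x ^ A → 1 + δ ≤ R x h) ∧ Steady A C x)).card : ℝ) ∧
      (X : ℝ) ^ (1 - ε) ≤ (((Ioc X (4 * X)).filter (fun x : ℕ => (∀ h : ℕ, 1 ≤ h →
        (h : ℝ) ≤ Real.log x ^ A → R x h ≤ 1 - δ) ∧ Steady A C x)).card : ℝ)) ∧
    ∀ lam : ℝ, 0 < lam → ∃ κ : ℝ, 0 < κ ∧
      ∀ x : ℕ, 1 ≤ Real.log x → Steady A C x → ∃ t : ℝ, 1 ≤ t ∧ t + κ ≤ A ∧ ∀ h h' : ℕ,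
        Real.log x ^ t ≤ h → (h : ℝ) ≤ Real.log x ^ (t + κ) → Real.log x ^ t ≤ h' →
          (h' : ℝ) ≤ Real.log x ^ (t + κ) → |R x h - R x h'| < lam := by
  intro A hA
  have hBON := Pool.Agent.N610.MS.t_BON
  have hCNT := Pool.Agent.N610.MS.t_CNT hBON (Pool.Agent.N610.MS.t_LEG hBON)
  have hSM := Pool.Agent.N610.PL.t_SM
  obtain ⟨δ, C, hδ, hC, h1⟩ := Pool.Agent.N610.PL.t_FIN
    (Pool.Agent.N610.PL.t_MAI hCNT Pool.Agent.N610.MS.t_ROWS) (Pool.Agent.N610.PL.t_RICH hSM)
    Pool.Agent.N610.PL.t_POOR (Pool.Agent.N610.PL.t_ST hSM (Pool.Agent.N610.PL.t_JR hSM)) A hA.le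
  refine ⟨δ, C, hδ, hC, fun ε hε => ?_, fun lam hlam => ?_⟩
  · filter_upwards [h1 ε hε] with X hX
    refine ⟨hX.1.trans (le_of_eq ?_), hX.2.trans (le_of_eq ?_)⟩
    · congr 1
    · congr 1
  · exact Pool.Agent.N610.PL.t_PLAT A C hA lam hlam

end Pool.Agent.Results.MP_b09185_nt.SteadyIrregularities
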